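import Mathlib
import Pool.Agent.H21.LatDefs
import Pool.Agent.H21.Lat

namespace Pool.Agent.Results.MP_622f37_al.AllFalse

open Pool.Agent.H21.Lat

theorem result :
    (¬ ∃ T : Set (lang.Term ℕ × lang.Term ℕ),
      ∀ (L : Type) [Lattice L] [Nonempty L], InKF L ↔ ∀ e ∈ T, SatId L e) ∧
    (¬ ∃ T : Finset lang.Sentence,
      ∀ (L : Type) [Lattice L] [Nonempty L], InKF L ↔ ∀ φ ∈ T, Sat L φ) ∧
    ¬ ∃ T : Finset (lang.Term ℕ × lang.Term ℕ),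
      ∀ (L : Type) [Lattice L] [Nonempty L], InKF L ↔ ∀ e ∈ T, SatId L e :=
  ⟨fun ⟨T, h⟩ => not_variety T h,
    fun ⟨T, h⟩ => main T (fun L _ => InKF L) (fun _ _ h => h) (fun _ _ => KF_KD) h,
    fun ⟨T, h⟩ => not_variety T h⟩

end Pool.Agent.Results.MP_622f37_al.AllFalse
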